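import Pool.Agent.MWV.Stmts

/-!
# MWV, row YIN (helper65)
-/

set_option autoImplicit false

namespace Pool.Agent.MWV.H65

open Pool.Agent.Helper14_MV Pool.Agent.Helper2_MV Pool.Agent.MWV

variable {N : ℕ} {S : List ℕ → List ℕ → Prop}

theorem wc65 (H : Wo N S) (P Q : List ℕ) {L L' : List ℕ} (h : S L L') :
    S (W P Q L) (W P Q L') := by
  have h1 := H.app (H.refl (pl P ++ [2])) (H.app h (H.refl (5 :: pr Q)))
  simpa [W] using h1

/-- letters of `cr` -/
theorem mem_cr65 (g : ℕ → Bool) (d : ℕ) : ∀ (k a : ℕ), a ∈ cr g [] d k →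
    (∃ i, i ≤ k ∧ a = 3 * (d + i) + 1) ∨ (∃ j, 1 ≤ j ∧ j ≤ k ∧ a = 3 * j + 3)
  | 0, a, h => by
    left
    refine ⟨0, le_refl 0, ?_⟩
    simpa [cr] using h
  | k + 1, a, h => by
    simp only [cr, List.mem_append, List.nil_append, List.mem_singleton] at h
    rcases h with h | h | h
    · rcases mem_cr65 g d k a h with ⟨i, h1, h2⟩ | ⟨j, h1, h2, h3⟩
      · exact Or.inl ⟨i, by omega, h2⟩
      · exact Or.inr ⟨j, h1, by omega, h3⟩
    · right
      unfold mk at h
      split at h
      · exact ⟨k + 1, by omega, le_refl _, by simpa using h⟩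
      · simp at h
    · exact Or.inl ⟨k + 1, le_refl _, h⟩

theorem count_cr65 (g : ℕ → Bool) : ∀ (k e : ℕ),
    (cr g [] 0 k).count (3 * e + 1) = if e ≤ k then 1 else 0
  | 0, e => by
    show ([3 * 0 + 1] : List ℕ).count (3 * e + 1) = _
    rw [List.count_singleton]
    by_cases h : e = 0
    · subst h; simp
    · have h1 : ¬ (3 * 0 + 1 = 3 * e + 1) := by omega
      have h2 : ¬ e ≤ 0 := by omega
      rw [if_neg h2, if_neg]
      simpa using h
  | k + 1, e => by
    have h1 : (mk g (k + 1)).count (3 * e + 1) = 0 := by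
      apply List.count_eq_zero.2
      intro h
      unfold mk at h
      split at h
      · have := List.mem_singleton.1 h
        omega
      · simp at h
    have h2 : ([3 * (0 + (k + 1)) + 1] : List ℕ).count (3 * e + 1) = if e = k + 1 then 1 else 0 := by
      rw [List.count_singleton]
      by_cases h : e = k + 1
      · subst h; simp
      · rw [if_neg h, if_neg]
        simp only [beq_iff_eq]
        omega
    simp only [cr, List.count_append, List.nil_append, h1, h2, count_cr65 g k e]
    by_cases h3 : e ≤ k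
    · rw [if_pos h3, if_neg (by omega), if_pos (by omega)]
    · by_cases h4 : e = k + 1
      · rw [if_neg h3, if_pos h4, if_pos (by omega)]
      · rw [if_neg h3, if_neg h4, if_neg (by omega)]

theorem x_cons65 {N : ℕ} (hN : 1 ≤ N) : X N 0 = 0 :: X (N - 1) 0 := by
  obtain ⟨m, rfl⟩ : ∃ m, N = m + 1 := ⟨N - 1, by omega⟩
  rfl

theorem mem_x65 {N a : ℕ} (h : a ∈ X N 0) : a = 0 := List.eq_of_mem_replicate h

theorem flat65 (N : ℕ) : (List.replicate N (X N 0)).flatten = X (N * N) 0 := by
  rw [List.flatten_replicate_replicate]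

/-- deletion of `0` -/
def del65 (a : ℕ) : List ℕ := if a = 0 then [] else [a]

theorem del_id65 : ∀ {L : List ℕ}, (∀ a ∈ L, a ≠ 0) → L.flatMap del65 = L
  | [], _ => rfl
  | a :: L, h => by
    rw [List.flatMap_cons, del_id65 (fun b hb => h b (List.mem_cons_of_mem _ hb))]
    have : a ≠ 0 := h a (by simp)
    simp [del65, this]

theorem pl_ne65 (P : List ℕ) : ∀ a ∈ pl P, a ≠ 0 := by
  intro a h
  simp only [pl, List.mem_flatMap, List.mem_cons, List.not_mem_nil, or_false] at h
  obtain ⟨e, _, rfl | rfl⟩ := h <;> omega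

theorem pr_ne65 (P : List ℕ) : ∀ a ∈ pr P, a ≠ 0 := by
  intro a h
  simp only [pr, List.mem_flatMap, List.mem_cons, List.not_mem_nil, or_false] at h
  obtain ⟨e, _, rfl | rfl⟩ := h <;> omega

theorem del_w65 (P Q L : List ℕ) : (W P Q L).flatMap del65 = W P Q (L.flatMap del65) := by
  unfold W
  rw [List.flatMap_append, List.flatMap_cons, List.flatMap_append, List.flatMap_cons,
    del_id65 (pl_ne65 P), del_id65 (pr_ne65 Q)]
  rfl

theorem mem_del65 {a : ℕ} {L : List ℕ} : a ∈ L.flatMap del65 ↔ a ∈ L ∧ a ≠ 0 := by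
  rw [List.mem_flatMap]
  constructor
  · rintro ⟨b, h1, h2⟩
    unfold del65 at h2
    split at h2
    · simp at h2
    · rename_i hb
      have := List.mem_singleton.1 h2
      subst this
      exact ⟨h1, hb⟩
  · rintro ⟨h1, h2⟩
    exact ⟨a, h1, by simp [del65, h2]⟩

theorem count_del65 {a : ℕ} (ha : a ≠ 0) (L : List ℕ) : (L.flatMap del65).count a = L.count a := by
  induction L with
  | nil => rfl
  | cons b L ih =>
    rw [List.flatMap_cons, List.count_append, ih]
    by_cases hb : b = 0
    · subst hb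
      have : (0 :: L).count a = L.count a := List.count_cons_of_ne (Ne.symm ha)
      rw [this]
      simp [del65]
    · have h1 : del65 b = [b] := by simp [del65, hb]
      rw [h1, List.count_cons, List.count_cons, List.count_nil]
      ring

/-- the substitution of the row -/
abbrev F65 (N k : ℕ) : ℕ → List ℕ := fj (j2 k) (hd 1 (X N 0))

theorem f_heavy65 (N k : ℕ) {a : ℕ} (ha : a % 3 = 0) :
    F65 N k a = if a = 3 then X N 0 else [a] := by
  show fj (j2 k) (hd 1 (X N 0)) a = _
  unfold fj hd
  rw [if_pos ha]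

theorem f_mem65 (N k : ℕ) {a b : ℕ} (ha : a % 3 ≠ 2) (hb : b ∈ F65 N k a) :
    b % 3 ≠ 2 ∧ (a % 3 = 0 → b % 3 = 0) ∧ (a ≠ 3 → a ≠ 0 → b ≠ 0) := by
  by_cases h0 : a % 3 = 0
  · rw [f_heavy65 N k h0] at hb
    split at hb
    · rename_i h3
      have := mem_x65 hb
      subst this
      exact ⟨by norm_num, fun _ => by norm_num, fun h => absurd h3 h⟩
    · have := List.mem_singleton.1 hb
      subst this
      exact ⟨by omega, fun _ => h0, fun _ h => h⟩
  · have h1 : a % 3 = 1 := by omega
    have hb' : b ∈ fj (j2 k) (hd 1 (X N 0)) a := hb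
    unfold fj at hb'
    rw [if_neg h0, if_pos h1] at hb'
    cases hj : j2 k (a / 3) with
    | none => rw [hj] at hb'; simp at hb'
    | some i =>
      rw [hj] at hb'
      have : b = 3 * i + 1 := by simpa using hb'
      subst this
      exact ⟨by omega, fun h => absurd h h0, fun _ _ => by omega⟩

theorem count_zero65 (N k : ℕ) : ∀ {L : List ℕ}, (∀ a ∈ L, a % 3 = 0 ∧ a ≠ 0) →
    (L.flatMap (F65 N k)).count 0 % N = 0
  | [], _ => by simp
  | a :: L, h => by
    rw [List.flatMap_cons, List.count_append]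
    have ih := count_zero65 N k (L := L) (fun b hb => h b (List.mem_cons_of_mem _ hb))
    obtain ⟨h1, h2⟩ := h a (by simp)
    rw [f_heavy65 N k h1]
    by_cases h3 : a = 3
    · rw [if_pos h3]
      have : (X N 0).count 0 = N := by simp
      rw [this, Nat.add_mod_left, ih]
    · rw [if_neg h3]
      have : ([a] : List ℕ).count 0 = 0 := by
        rw [List.count_singleton, if_neg]
        simpa using h2
      rw [this, Nat.zero_add, ih]

theorem yin (hHvy : HvyStmt) (hEnd : EndStmt) (hSbw : SbwStmt) (hPpm : PpmStmt) (hPjm : PjmStmt)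
    (hLbf : LbfStmt) (hDcb : DcbStmt) (hNob : NobStmt) (hOrd : OrdStmt) (hRig : RigStmt) :
    YinStmt := by
  intro N S P Q g k L1 H h
  have wo := H.wo
  have hN := wo.pos
  have hk := H.kp
  by_contra hno
  -- decomposition
  obtain ⟨L2, hV, hOk, hcont⟩ := hDcb N S P Q g k 1 _ H (le_refl 1) h
  have hL : L1 = L2 := by
    unfold W at hV
    have h1 := List.append_cancel_left hV
    have h2 := (List.cons.inj h1).2
    exact List.append_cancel_right h2
  subst hL
  obtain ⟨hperm, hp2, hp3, hp4⟩ := hPpm k P Q hk H.pm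
  have hmemP : ∀ e, e ≤ k + 2 → e ∈ PP k P ++ PP k Q := by
    intro e he
    exact hperm.mem_iff.2 (List.mem_range.2 (by omega))
  have hone : ∀ e, e ≤ k + 2 → L1.count (3 * e + 1) = 1 := fun e he => hOk.one e (hmemP e he)
  have hmem1 : ∀ e, e ≤ k + 2 → 3 * e + 1 ∈ L1 := fun e he =>
    List.count_pos_iff.1 (by rw [hone e he]; exact Nat.one_pos)
  have hlet : ∀ a ∈ L1, a % 3 = 0 ∨ ∃ e, e ≤ k + 2 ∧ a = 3 * e + 1 := by
    intro a ha
    rcases hOk.mem a ha with h1 | ⟨e, h1, h2⟩
    · exact Or.inl h1
    · have := List.mem_range.1 (hperm.mem_iff.1 h1)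
      exact Or.inr ⟨e, by omega, h2⟩
  have h0 : ∀ a ∈ L1, a ≠ 0 := by
    intro a ha h1
    subst h1
    have h2 := (hcont 0).1 ha
    unfold Lb Lp at h2
    rw [List.mem_filter] at h2
    have := h2.2
    simp at this
  -- first light
  have hm1 : (1 : ℕ) ∈ L1 := hmem1 0 (by omega)
  obtain ⟨A, D, hAD⟩ := List.append_of_mem hm1
  have hA1 : (1 : ℕ) ∉ A := by
    intro h1
    have h2 := hone 0 (by omega)
    have h3 : 0 < A.count 1 := List.count_pos_iff.2 h1
    rw [hAD, List.count_append, show 3 * 0 + 1 = 1 from rfl, List.count_cons_self] at h2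
    omega
  have hA : ∀ a ∈ A, a % 3 = 0 := by
    intro a ha
    have haL : a ∈ L1 := by rw [hAD]; exact List.mem_append_left _ ha
    rcases hlet a haL with h1 | ⟨e, h1, rfl⟩
    · exact h1
    · exfalso
      have he : 0 < e := by
        rcases Nat.eq_zero_or_pos e with h2 | h2
        · subst h2; exact absurd ha hA1
        · exact h2
      obtain ⟨u, v, huv⟩ := List.append_of_mem ha
      have h2 : L1 = u ++ (3 * e + 1) :: (v ++ 1 :: D) := by rw [hAD, huv]; simp
      have h3 := hOrd N S P Q g k 1 0 e u (v ++ 1 :: D) H (le_refl 1) he h1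
        (fun _ => Or.inl Iff.rfl) (by rw [← h2]; exact h)
      apply hA1
      rw [huv]
      exact List.mem_append_left _ h3
  -- last light
  have hmz : 3 * (k + 2) + 1 ∈ D := by
    have h1 := hmem1 (k + 2) (le_refl _)
    rw [hAD] at h1
    rcases List.mem_append.1 h1 with h2 | h2
    · have := hA _ h2; omega
    · rcases List.mem_cons.1 h2 with h3 | h3
      · omega
      · exact h3
  obtain ⟨B, C, hBC⟩ := List.append_of_mem hmz
  have hL : L1 = (A ++ 1 :: B) ++ (3 * (k + 2) + 1) :: C := by rw [hAD, hBC]; simp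
  have hC : ∀ a ∈ C, a % 3 = 0 := by
    intro a ha
    have haL : a ∈ L1 := by rw [hL]; exact List.mem_append_right _ (List.mem_cons_of_mem _ ha)
    rcases hlet a haL with h1 | ⟨e, h1, rfl⟩
    · exact h1
    · exfalso
      have hcC : 0 < C.count (3 * e + 1) := List.count_pos_iff.2 ha
      have h2 := hone e h1
      rw [hL, List.count_append, List.count_cons] at h2
      by_cases he : e = k + 2
      · subst he
        simp at h2
        omega
      · have h3 := hOrd N S P Q g k 1 e (k + 2) (A ++ 1 :: B) C H (le_refl 1) (by omega)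
          (le_refl _) (fun h4 => Or.inr h4) (by rw [← hL]; exact h)
        have h4 : 0 < (A ++ 1 :: B).count (3 * e + 1) := List.count_pos_iff.2 h3
        omega
  have hB3 : (3 : ℕ) ∉ B := by
    intro h1
    obtain ⟨b1, b2, hb⟩ := List.append_of_mem h1
    have h2 : L1 = (A ++ 1 :: b1) ++ 3 :: (b2 ++ (3 * (k + 2) + 1) :: C) := by
      rw [hL, hb]; simp
    have h3 : 3 * (k + 1 + 1) + 1 ∈ b2 ++ (3 * (k + 2) + 1) :: C := by
      have : 3 * (k + 1 + 1) + 1 = 3 * (k + 2) + 1 := by ring
      rw [this]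
      exact List.mem_append_right _ (by simp)
    have h4 : 3 * 1 + 1 ∉ A ++ 1 :: b1 := fun h5 =>
      hNob N S P Q g k 1 (A ++ 1 :: b1) _ H (le_refl 1)
        (by rw [show 3 * 1 = 3 from rfl, ← h2]; exact h) h5 h3
    apply hno
    refine ⟨A ++ 1 :: b1, b2 ++ (3 * (k + 2) + 1) :: C, h2, by simp, ?_⟩
    have h5 : (4 : ℕ) ∈ L1 := hmem1 1 (by omega)
    rw [h2] at h5
    rcases List.mem_append.1 h5 with h6 | h6
    · exact absurd h6 h4
    · rcases List.mem_cons.1 h6 with h7 | h7
      · omega
      · exact h7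
  -- apply the substitution
  have hPle : ∀ e ∈ P, e ≤ k := fun e he => by
    have := List.mem_range.1 (H.pm.mem_iff.1 (List.mem_append_left Q he))
    omega
  have hQle : ∀ e ∈ Q, e ≤ k := fun e he => by
    have := List.mem_range.1 (H.pm.mem_iff.1 (List.mem_append_right P he))
    omega
  have hFh : ∀ a, a % 3 = 0 → ∀ b ∈ F65 N k a, b % 3 = 0 := fun a ha b hb =>
    (f_mem65 N k (by omega) hb).2.1 ha
  have hs := wo.sub (F65 N k) hFh h
  unfold Wb at hs
  rw [hSbw, hSbw, (hPjm k P hk hPle).2.1, (hPjm k Q hk hQle).2.1,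
    (hLbf N g k (X N 0) hk).2.2.2.2.1, flat65] at hs
  have hcr : cr g [] 0 k = 1 :: (cr g [] 0 k).tail := (hLbf N g k (X N 0) hk).2.2.2.2.2
  generalize ht : (cr g [] 0 k).tail = t at hs hcr
  have htm : ∀ a ∈ t, a % 3 ≠ 2 ∧ a ≠ 0 := by
    intro a ha
    have h1 : a ∈ cr g [] 0 k := by rw [hcr]; exact List.mem_cons_of_mem _ ha
    rcases mem_cr65 g 0 k a h1 with ⟨i, _, h3⟩ | ⟨j, _, _, h3⟩ <;> omega
  -- the right main block
  have hF1 : F65 N k 1 = [1] := by
    show fj (j2 k) (hd 1 (X N 0)) 1 = [1]
    have : j2 k (1 / 3) = some 0 := by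
      unfold j2
      rw [if_neg]
      rintro (h1 | h1) <;> omega
    unfold fj
    rw [if_neg (by norm_num), if_pos (by norm_num), this]
    rfl
  have hFz : F65 N k (3 * (k + 2) + 1) = [] := by
    show fj (j2 k) (hd 1 (X N 0)) (3 * (k + 2) + 1) = []
    have h1 : (3 * (k + 2) + 1) / 3 = k + 2 := by omega
    have : j2 k (k + 2) = none := by
      unfold j2
      rw [if_pos (Or.inr rfl)]
    unfold fj
    rw [if_neg (by omega), if_pos (by omega), h1, this]
    rfl
  have hU : L1.flatMap (F65 N k) =
      A.flatMap (F65 N k) ++ 1 :: (B.flatMap (F65 N k) ++ C.flatMap (F65 N k)) := by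
    rw [hL, List.flatMap_append, List.flatMap_append, List.flatMap_cons, List.flatMap_cons, hF1,
      hFz]
    simp
  rw [hU] at hs
  have hLmem : ∀ a ∈ L1, a % 3 ≠ 2 := by
    intro a ha
    rcases hlet a ha with h1 | ⟨e, _, h2⟩ <;> omega
  have hAm : ∀ a ∈ A, a ∈ L1 := fun a ha => by rw [hL]; simp [ha]
  have hBm : ∀ a ∈ B, a ∈ L1 := fun a ha => by rw [hL]; simp [ha]
  have hCm : ∀ a ∈ C, a ∈ L1 := fun a ha => by rw [hL]; simp [ha]
  have kA : ∀ b ∈ A.flatMap (F65 N k), b % 3 = 0 := by
    intro b hb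
    obtain ⟨a, ha, hb⟩ := List.mem_flatMap.1 hb
    exact hFh a (hA a ha) b hb
  have kC : ∀ b ∈ C.flatMap (F65 N k), b % 3 = 0 := by
    intro b hb
    obtain ⟨a, ha, hb⟩ := List.mem_flatMap.1 hb
    exact hFh a (hC a ha) b hb
  have kB : ∀ b ∈ B.flatMap (F65 N k), b % 3 ≠ 2 ∧ b ≠ 0 := by
    intro b hb
    obtain ⟨a, ha, hb⟩ := List.mem_flatMap.1 hb
    have h1 := f_mem65 N k (hLmem a (hBm a ha)) hb
    refine ⟨h1.1, h1.2.2 ?_ (h0 a (hBm a ha))⟩
    rintro rfl
    exact hB3 ha
  have zA := count_zero65 N k (L := A) (fun a ha => ⟨hA a ha, h0 a (hAm a ha)⟩)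
  have zC := count_zero65 N k (L := C) (fun a ha => ⟨hC a ha, h0 a (hCm a ha)⟩)
  generalize A.flatMap (F65 N k) = A1 at hs kA zA
  generalize B.flatMap (F65 N k) = B1 at hs kB
  generalize C.flatMap (F65 N k) = C1 at hs kC zC
  -- deletion of 0
  have hd0 := wo.sub del65 (by
    intro a ha b hb
    unfold del65 at hb
    split at hb
    · simp at hb
    · have := List.mem_singleton.1 hb
      omega) hs
  rw [del_w65, del_w65] at hd0
  have e1 : (1 :: (X (N * N) 0 ++ (t ++ X (N * N) 0))).flatMap del65 = 1 :: t := by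
    have hx : ∀ M : ℕ, (X M 0).flatMap del65 = [] := by
      intro M
      apply List.flatMap_eq_nil_iff.2
      intro a ha
      have := mem_x65 ha
      subst this
      rfl
    rw [List.flatMap_cons, List.flatMap_append, List.flatMap_append, hx,
      del_id65 (fun a ha => (htm a ha).2)]
    simp [del65]
  have e2 : (A1 ++ 1 :: (B1 ++ C1)).flatMap del65 =
      A1.flatMap del65 ++ 1 :: (B1 ++ C1.flatMap del65) := by
    rw [List.flatMap_append, List.flatMap_cons, List.flatMap_append,
      del_id65 (fun a ha => (kB a ha).2)]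
    simp [del65]
  rw [e1, e2] at hd0
  have hmod : ∀ a, a % 3 ≠ 2 → a ≠ 2 ∧ a ≠ 5 := by
    intro a ha
    constructor <;> rintro rfl <;> exact ha rfl
  -- END
  have hE1 := hEnd N S wo P Q _ _ (X N 0) (X N 0) (by
    intro a ha
    apply hmod
    rcases List.mem_append.1 ha with h1 | h1
    · rcases List.mem_cons.1 h1 with h2 | h2
      · omega
      · exact (htm a h2).1
    · rcases List.mem_append.1 h1 with h2 | h2
      · have := kA a (mem_del65.1 h2).1; omega
      · rcases List.mem_cons.1 h2 with h3 | h3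
        · omega
        · rcases List.mem_append.1 h3 with h4 | h4
          · exact (kB a h4).1
          · have := kC a (mem_del65.1 h4).1; omega) hd0
  have hE2 := hEnd N S wo P Q _ _ (X N 0) (X N 0) (by
    intro a ha
    apply hmod
    rcases List.mem_append.1 ha with h1 | h1
    · rcases List.mem_cons.1 h1 with h2 | h2
      · omega
      · rcases List.mem_append.1 h2 with h3 | h3
        · have := mem_x65 h3; omega
        · rcases List.mem_append.1 h3 with h4 | h4
          · exact (htm a h4).1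
          · have := mem_x65 h4; omega
    · rcases List.mem_append.1 h1 with h2 | h2
      · have := kA a h2; omega
      · rcases List.mem_cons.1 h2 with h3 | h3
        · omega
        · rcases List.mem_append.1 h3 with h4 | h4
          · exact (kB a h4).1
          · have := kC a h4; omega) hs
  have x0 : (0 : ℕ) ∈ X N 0 := by rw [x_cons65 hN]; simp
  have xc : (X N 0).count 0 = N := by simp
  have hvA : S (X N 0 ++ A1.flatMap del65) (X N 0 ++ A1) := by
    apply hHvy N S wo
    · intro a ha
      rcases List.mem_append.1 ha with h1 | h1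
      · have := mem_x65 h1; omega
      · exact kA a (mem_del65.1 h1).1
    · intro a ha
      rcases List.mem_append.1 ha with h1 | h1
      · have := mem_x65 h1; omega
      · exact kA a h1
    · intro a
      rw [List.mem_append, List.mem_append, mem_del65]
      by_cases ha : a = 0
      · subst ha; simp [x0]
      · simp [ha]
    · intro a
      rw [List.count_append, List.count_append]
      by_cases ha : a = 0
      · subst ha
        have h1 : (A1.flatMap del65).count 0 = 0 := List.count_eq_zero.2 (fun h2 =>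
          (mem_del65.1 h2).2 rfl)
        rw [xc, h1, Nat.add_zero, Nat.mod_self, Nat.add_mod_left, zA]
      · rw [count_del65 ha]
  have hvC : S (C1.flatMap del65 ++ X N 0) (C1 ++ X N 0) := by
    apply hHvy N S wo
    · intro a ha
      rcases List.mem_append.1 ha with h1 | h1
      · exact kC a (mem_del65.1 h1).1
      · have := mem_x65 h1; omega
    · intro a ha
      rcases List.mem_append.1 ha with h1 | h1
      · exact kC a h1
      · have := mem_x65 h1; omega
    · intro a
      rw [List.mem_append, List.mem_append, mem_del65]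
      by_cases ha : a = 0
      · subst ha; simp [x0]
      · simp [ha]
    · intro a
      rw [List.count_append, List.count_append]
      by_cases ha : a = 0
      · subst ha
        have h1 : (C1.flatMap del65).count 0 = 0 := List.count_eq_zero.2 (fun h2 =>
          (mem_del65.1 h2).2 rfl)
        rw [xc, h1, Nat.zero_add, Nat.mod_self, Nat.add_mod_right, zC]
      · rw [count_del65 ha]
  have hmid : S (X N 0 ++ ((A1.flatMap del65 ++ 1 :: (B1 ++ C1.flatMap del65)) ++ X N 0))
      (X N 0 ++ ((A1 ++ 1 :: (B1 ++ C1)) ++ X N 0)) := by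
    have h1 := wo.app hvA (wo.app (wo.refl (1 :: B1)) hvC)
    simpa using h1
  have hx1 : S (X (N * N) 0) (X N 0) := by
    apply hHvy N S wo
    · intro a ha; have := mem_x65 ha; omega
    · intro a ha; have := mem_x65 ha; omega
    · intro a
      have h1 : N * N ≠ 0 := Nat.mul_ne_zero (by omega) (by omega)
      simp only [X, List.mem_replicate]
      constructor
      · rintro ⟨_, h2⟩; exact ⟨by omega, h2⟩
      · rintro ⟨_, h2⟩; exact ⟨h1, h2⟩
    · intro a
      simp only [X, List.count_replicate]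
      by_cases ha : a = 0
      · subst ha; simp
      · have : ¬ ((0 : ℕ) == a) = true := by simpa using Ne.symm ha
        rw [if_neg this, if_neg this]
  have hx2 : S (X (N * N) 0 ++ X N 0) (X N 0) := by
    have h1 := wo.app hx1 (wo.refl (X N 0))
    refine wo.trans h1 ?_
    apply hHvy N S wo
    · intro a ha
      rcases List.mem_append.1 ha with h2 | h2 <;> (have := mem_x65 h2; omega)
    · intro a ha; have := mem_x65 ha; omega
    · intro a
      rw [List.mem_append, or_self]
    · intro a
      rw [List.count_append]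
      by_cases ha : a = 0
      · subst ha
        rw [xc, Nat.add_mod_left]
      · have : (X N 0).count a = 0 := List.count_eq_zero.2 (fun h2 => ha (mem_x65 h2))
        rw [this]
  have hend : S (X N 0 ++ ((1 :: (X (N * N) 0 ++ (t ++ X (N * N) 0))) ++ X N 0))
      (X N 0 ++ 1 :: (X N 0 ++ (t ++ X N 0))) := by
    have h1 := wo.app (wo.refl (X N 0 ++ [1])) (wo.app hx1 (wo.app (wo.refl t) hx2))
    simpa using h1
  have hfin : S (W P Q (X N 0 ++ (cr g [] 0 k ++ X N 0)))
      (W P Q ((X N 0 ++ [1]) ++ 0 :: (X (N - 1) 0 ++ (t ++ X N 0)))) := by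
    rw [hcr]
    have h1 := wo.trans hE1 (wo.trans (wc65 wo P Q hmid) (wo.trans (wo.symm hE2) (wc65 wo P Q hend)))
    have e3 : (X N 0 ++ [1]) ++ 0 :: (X (N - 1) 0 ++ (t ++ X N 0)) =
        X N 0 ++ 1 :: (X N 0 ++ (t ++ X N 0)) := by
      conv_rhs => rw [show X N 0 ++ 1 :: (X N 0 ++ (t ++ X N 0)) =
        X N 0 ++ 1 :: ((0 :: X (N - 1) 0) ++ (t ++ X N 0)) by rw [← x_cons65 hN]]
      simp
    rw [e3]
    exact h1
  have hcount : ∀ e, (((X N 0 ++ [1]) ++ 0 :: (X (N - 1) 0 ++ (t ++ X N 0))).count (3 * e + 1)) =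
      (cr g [] 0 k).count (3 * e + 1) := by
    intro e
    have z1 : ∀ M, (X M 0).count (3 * e + 1) = 0 := fun M =>
      List.count_eq_zero.2 (fun h2 => by have := mem_x65 h2; omega)
    have z2 : ∀ l : List ℕ, (0 :: l).count (3 * e + 1) = l.count (3 * e + 1) := fun l =>
      List.count_cons_of_ne (by omega)
    conv_rhs => rw [hcr]
    rw [List.count_append, List.count_append, z2, List.count_append, List.count_append, z1, z1,
      List.count_cons, List.count_cons, List.count_nil]
    ring
  refine H.nrun (hRig N S P Q g k wo hk H.fr H.pm H.one (X N 0 ++ [1])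
    (X (N - 1) 0 ++ (t ++ X N 0)) hfin ⟨?_, ?_⟩ ?_ (by simp) ?_)
  · intro a ha
    have hcase : a = 0 ∨ a ∈ cr g [] 0 k := by
      rw [hcr]
      simp only [List.mem_append, List.mem_cons, List.not_mem_nil, or_false] at ha
      rcases ha with (h1 | h1) | h1 | h1 | h1 | h1
      · exact Or.inl (mem_x65 h1)
      · exact Or.inr (by simp [h1])
      · exact Or.inl h1
      · exact Or.inl (mem_x65 h1)
      · exact Or.inr (List.mem_cons_of_mem _ h1)
      · exact Or.inl (mem_x65 h1)
    rcases hcase with h1 | h1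
    · left; omega
    · rcases mem_cr65 g 0 k a h1 with ⟨i, h2, h3⟩ | ⟨j, _, _, h3⟩
      · right
        exact ⟨i, H.pm.mem_iff.2 (List.mem_range.2 (by omega)), by omega⟩
      · left; omega
  · intro e he
    have := List.mem_range.1 (H.pm.mem_iff.1 he)
    rw [hcount, count_cr65, if_pos (by omega)]
  · intro a ha
    rw [List.mem_append]
    rw [hcr]
    simp only [List.mem_append, List.mem_cons, List.not_mem_nil, or_false] at ha ⊢
    rcases ha with (h1 | h1) | h1 | h1 | h1
    · exact Or.inl h1
    · exact Or.inr (Or.inl h1)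
    · left
      have := mem_x65 h1
      subst this
      exact x0
    · exact Or.inr (Or.inr h1)
    · exact Or.inl h1
  · have h1 : 3 * k + 1 ∈ cr g [] 0 k := List.count_pos_iff.1 (by
      rw [count_cr65, if_pos (le_refl k)]; exact Nat.one_pos)
    rw [hcr] at h1
    rcases List.mem_cons.1 h1 with h2 | h2
    · omega
    · simp [h2]

end Pool.Agent.MWV.H65
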